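import Pool.Agent.Y992.HL.Stm

/-!
Project HL (owner helper992), part BFS': the crude bound along paths, graphs with few backward
neighbours (job 3704).
-/

set_option autoImplicit false

namespace Pool.Agent.Y434.HL

open Finset Pool.Agent.H983R2.GC Pool.Agent.W341.UG Pool.Agent.Y992.HL

section

variable {V : Type} [Fintype V] [DecidableEq V]

open Classical in
/-- The number of forward paths of length `d` from `x` inside `R`. -/
noncomputable def np (G : SimpleGraph V) (D : V → V → ℕ) (R : Finset V) (v : V) : ℕ → V → ℝ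
  | 0, _ => 1
  | d + 1, x => ∑ y ∈ R.filter (fun y => G.Adj x y ∧ D v y = D v x + 1), np G D R v d y

omit [Fintype V] [DecidableEq V] in
theorem np_nonneg (G : SimpleGraph V) (D : V → V → ℕ) (R : Finset V) (v : V) (d : ℕ) :
    ∀ x, 0 ≤ np G D R v d x := by
  induction d with
  | zero => intro x; rw [np]; norm_num
  | succ d ih => intro x; rw [np]; exact sum_nonneg fun y _ => ih y

/-- The final count. -/
theorem np_count (hL : S_LY') (G : SimpleGraph V) (D : V → V → ℕ) (Δ B K k : ℕ)
    (hG : GD G D B K) (hk : k + 2 ≤ K) (hΔ : ∀ w, (nb G univ w).card ≤ Δ) (R : Finset V) (v : V)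
    (hv : v ∉ R) : ∀ d i : ℕ, i + d = k + 1 → ∑ x ∈ lyD G D R v i, np G D R v d x ≤
      ((B : ℝ) * ((k : ℝ) + 1)) ^ d * ((lyD G D R v (k + 1)).card : ℝ) := by
  classical
  obtain ⟨-, hL2, hL3, -, -⟩ := hL V G D Δ B K hG hΔ R v hv
  intro d
  induction d with
  | zero =>
    intro i hi
    have hi' : i = k + 1 := by omega
    rw [hi', pow_zero, one_mul]
    refine le_of_eq ?_
    calc ∑ x ∈ lyD G D R v (k + 1), np G D R v 0 x = ∑ x ∈ lyD G D R v (k + 1), (1 : ℝ) :=
          sum_congr rfl fun x _ => by rw [np]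
      _ = _ := by rw [sum_const, nsmul_eq_mul, mul_one]
  | succ d ih =>
    intro i hi
    have h1 := ih (i + 1) (by omega)
    have h2 : ∑ x ∈ lyD G D R v i, np G D R v (d + 1) x ≤
        ∑ y ∈ lyD G D R v (i + 1), ((B : ℝ) * ((k : ℝ) + 1)) * np G D R v d y := by
      have e1 : ∀ x ∈ lyD G D R v i, np G D R v (d + 1) x =
          ∑ y ∈ lyD G D R v (i + 1), if G.Adj x y then np G D R v d y else 0 := by
        intro x hx
        rw [np, ← sum_filter]
        refine sum_congr ?_ fun _ _ => rfl
        ext y
        rw [mem_filter, mem_filter, lyD, mem_filter, hL2 i x hx]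
        constructor
        · rintro ⟨h3, h4, h5⟩
          exact ⟨⟨h3, h5, x, hx, h4⟩, h4⟩
        · rintro ⟨⟨h3, h5, -⟩, h4⟩
          exact ⟨h3, h4, h5⟩
      rw [sum_congr rfl e1, sum_comm]
      refine sum_le_sum fun y hy => ?_
      rw [← sum_filter, sum_const, nsmul_eq_mul]
      refine mul_le_mul_of_nonneg_right ?_ (np_nonneg G D R v d y)
      have h3 := hL2 (i + 1) y hy
      have h4 := hG.back v y (by omega) ((lyD G D R v i).filter fun x => G.Adj x y) (by
        intro x hx
        rw [mem_filter] at hx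
        refine ⟨hx.2.symm, ?_⟩
        rw [h3, hL2 i x hx.1]
        omega)
      rw [h3] at h4
      have h5 : B * (i + 1) ≤ B * (k + 1) := Nat.mul_le_mul_left _ (by omega)
      exact_mod_cast h4.trans h5
    refine h2.trans ?_
    rw [← mul_sum, pow_succ']
    have h6 : (0 : ℝ) ≤ (B : ℝ) * ((k : ℝ) + 1) := by positivity
    have h7 := mul_le_mul_of_nonneg_left h1 h6
    refine h7.trans (le_of_eq ?_)
    ring

end

/-- The constant term. -/
noncomputable def ad (ε A om ka : ℝ) (d : ℕ) : ℝ :=
  om * ∑ i ∈ range d, (2 / ε) ^ (i + 1) + (om + A) * (ka * ∑ i ∈ range d, (2 / ε) ^ i)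

theorem ad_nonneg {ε A om ka : ℝ} (hε : 0 < ε) (hA : 0 ≤ A) (hom : 0 ≤ om) (hka : 0 ≤ ka)
    (d : ℕ) : 0 ≤ ad ε A om ka d := by
  unfold ad
  positivity

theorem ad_succ (ε A om ka : ℝ) (d : ℕ) :
    ad ε A om ka (d + 1) = 2 / ε * (om + ad ε A om ka d) + ka * (om + A) := by
  unfold ad
  have h1 : ∑ i ∈ range (d + 1), (2 / ε) ^ (i + 1) =
      2 / ε * (1 + ∑ i ∈ range d, (2 / ε) ^ (i + 1)) := by
    rw [sum_range_succ', mul_add, mul_one, mul_sum, add_comm, zero_add, pow_one]
    congr 1
    exact sum_congr rfl fun i _ => pow_succ' _ (i + 1)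
  have h2 : ∑ i ∈ range (d + 1), (2 / ε) ^ i = 1 + 2 / ε * ∑ i ∈ range d, (2 / ε) ^ i := by
    rw [sum_range_succ', mul_sum, pow_zero, add_comm]
    congr 1
    exact sum_congr rfl fun i _ => pow_succ' _ i
  rw [h1, h2]
  ring

theorem deg_le {a s Δ ε : ℝ} (hs : 0 < s) (hε : 0 < ε) (h1 : a ≤ Δ) (h2 : ε * Δ ≤ s) :
    2 / s * a ≤ 2 / ε := by
  rw [div_mul_eq_mul_div, div_le_div_iff₀ hs hε]
  nlinarith

theorem t_BFS' (hL : S_LY') (hO : S_OSCL) (hB : S_TELB) : S_BFS' := by
  intro V C _ _ _ _ G D c0 s Δ N k j B K ε A om hs hε hA hG hK hΔ hεΔ hIB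
  intro R L v b c F W hRc hvR hSl hSlP hWR hLip hcase
  classical
  obtain ⟨hL1, hL2, hL3, hL4, -⟩ := hL V G D Δ B K hG hΔ R v hvR
  have hom : 0 ≤ om := by rcases hcase with h | h <;> (have h0 := h.1; norm_num [h0])
  have hs0 : (0 : ℝ) < s := by
    have : 0 < s := by omega
    exact_mod_cast this
  obtain ⟨ka, hka⟩ : ∃ ka : ℝ, ka = (2 / (s : ℝ)) * ((B : ℝ) * ((k : ℝ) + 1)) := ⟨_, rfl⟩
  have hka0 : 0 ≤ ka := by rw [hka]; positivity
  have key : ∀ d i : ℕ, i + d = k + 1 → ∀ x ∈ lyD G D R v i, ∀ R' : Finset V, R' ⊆ R → x ∉ R' →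
      R'.card ≤ N + 1 → (1 ≤ i → R'.card ≤ N) →
      ∀ L' : V → Finset C, Sl G s R' L' → SlP G s R' (nb G R' x) L' →
      ∀ (F : (V → C) → ℝ) (W' : Finset V), Lip W' F → W' ⊆ R' → W' ⊆ W → ∀ b c : C,
      |EE G c0 R' (era L' (nb G R' x) b) F - EE G c0 R' (era L' (nb G R' x) c) F| ≤
        ad ε A om ka d + (2 / (s : ℝ)) ^ d * np G D R v d x * A := by
    intro d
    induction d with
    | zero =>
      intro i hi x hx R' hR' hxR' _ hcN L' hS hSP F W' hF hW' hW'W b c
      have hiK : i = k + 1 := by omega
      have h1 : ∀ w ∈ W', j ≤ D x w := by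
        intro w hw
        rcases hcase with h | h
        · rw [h.2]; exact Nat.zero_le _
        · have h2 := h.2.2 w (hW'W hw)
          have h3 := hL4 i x hx w
          omega
      have h2 := hIB R' L' x b c F W' (hcN (by omega)) hxR' hS hSP hW' hF h1
      have h3 : ad ε A om ka 0 + (2 / (s : ℝ)) ^ 0 * np G D R v 0 x * A = A := by
        rw [np]
        unfold ad
        simp
      rw [h3]
      exact h2
    | succ d ih =>
      intro i hi x hx R' hR' hxR' hc1 _ L' hS hSP F W' hF hW' hW'W b c
      have hik : i ≤ k := by omega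
      have hvx : D v x = i := hL2 i x hx
      obtain ⟨X, hX⟩ : ∃ X : V → ℝ, ∀ g, X g = if D v g = D v x + 1 then
          ad ε A om ka d + (2 / (s : ℝ)) ^ d * np G D R v d g * A else A := ⟨_, fun _ => rfl⟩
      have hX0 : ∀ g, 0 ≤ X g := fun g => by
        rw [hX]
        have h1 := ad_nonneg hε hA hom hka0 d
        have h2 := np_nonneg G D R v d g
        split_ifs
        · positivity
        · exact hA
      -- the claim for the neighbours
      have hg1 : ∀ g ∈ nb G R' x, ∀ L'' : V → Finset C, Sl G s R' L'' →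
          ∀ c' : C, |uu G c0 R' L'' F g c'| ≤ om + X g := by
        intro g hg L'' hS'' c'
        have hgR' : g ∈ R' := nb_subset G R' x hg
        have hxg : G.Adj x g := ((mem_nb G R' x g).1 hg).2
        have hlip1 : D v g ≤ D v x + 1 := hG.lip v g x hxg.symm
        have hcard : (R'.erase g).card ≤ N := by
          rw [card_erase_of_mem hgR']
          omega
        have h1 := hO V C G c0 s R' L'' g F W' (X g) hs (hX0 g) hgR' hS'' hF (by
          intro F' hF' a a'
          by_cases hf : D v g = D v x + 1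
          · have hgl : g ∈ lyD G D R v (i + 1) := by
              rw [lyD, mem_filter]
              exact ⟨hR' hgR', by rw [hf, hvx], x, hx, hxg⟩
            have h2 := ih (i + 1) (by omega) g hgl (R'.erase g)
              ((erase_subset _ _).trans hR') (notMem_erase _ _) (by omega) (fun _ => hcard)
              L'' (Sl_del G s R' L'' g hgR' hS'') (SlP_del G s R' L'' g hgR' hS'') F'
              (W'.erase g) hF' (erase_subset_erase _ hW') ((erase_subset _ _).trans hW'W) a a'
            rw [nb_erase_self] at h2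
            rw [hX, if_pos hf]
            exact h2
          · have h2 := hIB (R'.erase g) L'' g a a' F' (W'.erase g) hcard (notMem_erase _ _)
              (Sl_del G s R' L'' g hgR' hS'') (SlP_del G s R' L'' g hgR' hS'')
              (erase_subset_erase _ hW') hF' (by
                intro w hw
                have hwW : w ∈ W := hW'W (mem_of_mem_erase hw)
                rcases hcase with h | h
                · rw [h.2]; exact Nat.zero_le _
                · have h3 := h.2.2 w hwW
                  have h4 := hL4 i x hx w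
                  have h5 : D x w ≤ D g w + 1 := by
                    rw [hG.symm x w, hG.symm g w]
                    exact hG.lip w x g hxg
                  omega)
            rw [nb_erase_self] at h2
            rw [hX, if_neg hf]
            exact h2)
        rcases hcase with h | h
        · rw [h.1]
          exact h1.2.2 c'
        · have h2 : g ∉ W' := by
            intro hgW
            have := h.2.2 g (hW'W hgW)
            omega
          rw [h.1, zero_add]
          exact (h1.1 h2).2 c'
      have hT : ∀ c' : C, |EE G c0 R' (era L' (nb G R' x) c') F - EE G c0 R' L' F| ≤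
          1 / (s : ℝ) * ∑ g ∈ nb G R' x, (om + X g) := by
        intro c'
        refine hB V C G c0 s R' L' F c' (fun g => om + X g) (nb G R' x) hs (nb_subset _ _ _)
          hS hSP (fun g _ => add_nonneg hom (hX0 g)) (fun T' hT' g hg _ => ?_)
        exact hg1 g hg _ (Sl_era G s R' T' L' c' hS fun w hw => hSP w (hT' hw)) c'
      have hdeg : 2 / (s : ℝ) * (((nb G R' x).filter fun g => D v g = D v x + 1).card : ℝ) ≤
          2 / ε := by
        have h1 : (((nb G R' x).filter fun g => D v g = D v x + 1).card : ℝ) ≤ Δ := by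
          have h2 : (nb G R' x).card ≤ (nb G univ x).card := card_le_card fun y hy => by
            rw [mem_nb] at hy ⊢
            exact ⟨mem_univ _, hy.2⟩
          exact_mod_cast ((card_filter_le _ _).trans h2).trans (hΔ x)
        exact deg_le hs0 hε h1 hεΔ
      have hback : (((nb G R' x).filter fun g => ¬ D v g = D v x + 1).card : ℝ) ≤
          (B : ℝ) * ((k : ℝ) + 1) := by
        have h1 := hG.back v x (by omega) ((nb G R' x).filter fun g => ¬ D v g = D v x + 1) (by
          intro y hy
          rw [mem_filter, mem_nb] at hy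
          refine ⟨hy.1.2, ?_⟩
          have := hG.lip v y x hy.1.2.symm
          omega)
        have h2 : B * D v x ≤ B * (k + 1) := Nat.mul_le_mul_left _ (by omega)
        exact_mod_cast h1.trans h2
      have hcnt : ∑ g ∈ (nb G R' x).filter (fun g => D v g = D v x + 1), np G D R v d g ≤
          np G D R v (d + 1) x := by
        rw [np]
        refine sum_le_sum_of_subset_of_nonneg ?_ fun y _ _ => np_nonneg G D R v d y
        intro y hy
        rw [mem_filter, mem_nb] at hy
        rw [mem_filter]
        exact ⟨hR' hy.1.1, hy.1.2, hy.2⟩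
      have hmain : |EE G c0 R' (era L' (nb G R' x) b) F - EE G c0 R' (era L' (nb G R' x) c) F| ≤
          2 / (s : ℝ) * ∑ g ∈ nb G R' x, (om + X g) := by
        have h1 := hT b
        have h2 := hT c
        rw [abs_sub_comm] at h2
        calc _ ≤ _ := abs_sub_le _ (EE G c0 R' L' F) _
          _ ≤ _ := add_le_add h1 h2
          _ = _ := by ring
      refine hmain.trans ?_
      rw [← sum_filter_add_sum_filter_not (nb G R' x) (fun g => D v g = D v x + 1)]
      have e1 : ∑ g ∈ (nb G R' x).filter (fun g => D v g = D v x + 1), (om + X g) =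
          (((nb G R' x).filter fun g => D v g = D v x + 1).card : ℝ) *
            (om + ad ε A om ka d) + (2 / (s : ℝ)) ^ d * A *
            ∑ g ∈ (nb G R' x).filter (fun g => D v g = D v x + 1), np G D R v d g := by
        rw [mul_sum, ← nsmul_eq_mul, ← sum_const, ← sum_add_distrib]
        refine sum_congr rfl fun g hg => ?_
        rw [mem_filter] at hg
        rw [hX, if_pos hg.2]
        ring
      have e2 : ∑ g ∈ (nb G R' x).filter (fun g => ¬ D v g = D v x + 1), (om + X g) =
          (((nb G R' x).filter fun g => ¬ D v g = D v x + 1).card : ℝ) * (om + A) := by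
        rw [← nsmul_eq_mul, ← sum_const]
        refine sum_congr rfl fun g hg => ?_
        rw [mem_filter] at hg
        rw [hX, if_neg hg.2]
      rw [e1, e2, ad_succ]
      have hp1 : 0 ≤ om + ad ε A om ka d := add_nonneg hom (ad_nonneg hε hA hom hka0 d)
      have hp2 : 0 ≤ 2 / (s : ℝ) * ((2 / (s : ℝ)) ^ d * A) := by positivity
      have hp3 : 0 ≤ 2 / (s : ℝ) * (om + A) := by positivity
      have f1 := mul_le_mul_of_nonneg_right hdeg hp1
      have f2 := mul_le_mul_of_nonneg_left hcnt hp2
      have f3 := mul_le_mul_of_nonneg_left hback hp3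
      have f4 : 2 / (s : ℝ) * (om + A) * ((B : ℝ) * ((k : ℝ) + 1)) = ka * (om + A) := by
        rw [hka]
        ring
      rw [f4] at f3
      have f5 : (2 / (s : ℝ)) ^ (d + 1) = (2 / (s : ℝ)) ^ d * (2 / (s : ℝ)) := pow_succ _ _
      rw [f5]
      linarith
  have h1 := key (k + 1) 0 (by omega) v (by show v ∈ ({v} : Finset V); exact mem_singleton_self v)
    R subset_rfl hvR hRc (fun h => by omega) L hSl hSlP F W hLip hWR subset_rfl b c
  refine h1.trans ?_
  have h2 := np_count hL G D Δ B K k hG hK hΔ R v hvR (k + 1) 0 (by omega)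
  have h3 : ∑ x ∈ lyD G D R v 0, np G D R v (k + 1) x = np G D R v (k + 1) v := by
    show ∑ x ∈ ({v} : Finset V), np G D R v (k + 1) x = np G D R v (k + 1) v
    rw [sum_singleton]
  rw [h3] at h2
  have h4 : (0 : ℝ) ≤ (2 / (s : ℝ)) ^ (k + 1) * A := by positivity
  have h5 := mul_le_mul_of_nonneg_left h2 h4
  unfold ad
  rw [hka]
  linarith

end Pool.Agent.Y434.HL
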